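import Mathlib
import Pool.Agent.Lib.MP_17aaef_lc.Basic

set_option autoImplicit false

namespace Pool.Agent.Results.MP_17aaef_lc.Equivalence

open Cardinal Pool.Agent.Lib.MP_17aaef_lc

universe u

/-- Ulam's question on abstract projective sets is equivalent to its restriction to the first
projective class and to the purely set-theoretic family property. -/
theorem result (E : Type u) (hE : #E = 𝔠) :
    List.TFAE [UlamQuestion E, UlamQuestionOne E, FamilyProperty E] := by
  tfae_have 1 → 2 := one_of_question
  tfae_have 2 → 3 := family_of_one hE
  tfae_have 3 → 1 := question_of_family
  tfae_finish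

end Pool.Agent.Results.MP_17aaef_lc.Equivalence
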