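import Mathlib
import Pool.Agent.Lib.MP_17aaef_lc.AlephOne

set_option autoImplicit false

namespace Pool.Agent.Results.MP_17aaef_lc.RectangleEquivalence

open Set Cardinal Ordinal MeasureTheory Pool.Agent.Lib.MP_17aaef_lc

universe u

/-- Ulam's question on abstract projective sets and Ulam's question on abstract rectangles, in
ZFC. (1) A positive answer to the question on rectangles of `E × E` gives one to Q1.
(2) A positive answer to Q1 gives that all subsets of `X × I`, `#X ≤ 𝔠`, `#I < 𝔠`, are in the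
sigma-algebra generated by the rectangles. (3) If the cofinality of `𝔠` is not `ℵ₁`, or `𝔠 = ℵ₁`,
then Q1 holds if and only if all subsets of `E × E` are in this sigma-algebra. (4) If the
cofinality of `𝔠` is `ℵ₁`, then Q1 holds if and only if all subsets of `E × I` are in this
sigma-algebra for all sets `I` of cardinality less than `𝔠`. -/
theorem result (E : Type u) (hE : #E = 𝔠) :
    ((∀ W : Set (E × E), MeasurableSet[rectAlgebra E E] W) → UlamQuestion E) ∧
    (UlamQuestion E → ∀ X I : Type u, #X ≤ 𝔠 → #I < 𝔠 →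
      ∀ W : Set (X × I), MeasurableSet[rectAlgebra X I] W) ∧
    ((𝔠 : Cardinal.{u}).ord.cof ≠ ℵ₁ ∨ (𝔠 : Cardinal.{u}) = ℵ₁ →
      (UlamQuestion E ↔ ∀ W : Set (E × E), MeasurableSet[rectAlgebra E E] W)) ∧
    ((𝔠 : Cardinal.{u}).ord.cof = ℵ₁ →
      (UlamQuestion E ↔ ∀ I : Type u, #I < 𝔠 →
        ∀ W : Set (E × I), MeasurableSet[rectAlgebra E I] W)) := by
  have h1 : (∀ W : Set (E × E), MeasurableSet[rectAlgebra E E] W) → UlamQuestion E :=
    fun h => question_of_family (family_of_rect hE fun _ => h _)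
  have h2 : UlamQuestion E → ∀ X I : Type u, #X ≤ 𝔠 → #I < 𝔠 →
      ∀ W : Set (X × I), MeasurableSet[rectAlgebra X I] W := by
    intro hQ X I hX hI W
    exact allRect_of_family' hE (family_of_one hE (one_of_question hQ)) #I (Or.inl hI) X I hX le_rfl
      fun y => {x | (x, y) ∈ W}
  refine ⟨h1, h2, fun hc => ⟨fun hQ W => ?_, h1⟩,
    fun hc => ⟨fun hQ I hI W => h2 hQ E I hE.le hI W, fun h => ?_⟩⟩
  · exact allRect_of_family' hE (family_of_one hE (one_of_question hQ)) 𝔠 (Or.inr ⟨rfl, hc⟩) E E
      hE.le hE.le fun y => {x | (x, y) ∈ W}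
  · exact question_of_family (family_of_cof_aleph_one hE hc fun I hI F => h I hI _)

end Pool.Agent.Results.MP_17aaef_lc.RectangleEquivalence
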